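import Pool.Agent.H92.EM.TB
import Pool.Agent.H72.EQ.KL

/-!
Row MKL of emd_modules: lower bound of the relative lower Jacobian.
-/

namespace Pool.Agent.H41.EM

open scoped BigOperators ComplexConjugate ContDiff ComplexOrder
open MeasureTheory Pool.Agent.H92.EQ Pool.Agent.H92.EM Pool.Agent.H72.EQ

/-- the determinant only depends on the lower right block -/
theorem lowM_det_congr {k m : ℕ} (P Q : Matrix (Fin (k + 1)) (Fin (k + 1)) ℂ)
    (h : ∀ i j : Fin (k + 1), m ≤ (i : ℕ) → m ≤ (j : ℕ) → P i j = Q i j) :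
    (lowM m P).det = (lowM m Q).det := by
  have key : ∀ R : Matrix (Fin (k + 1)) (Fin (k + 1)) ℂ, ∀ i : Fin (k + 1), (i : ℕ) < m →
      ∀ j : Fin (k + 1), ¬ (j : ℕ) < m → lowM m R i j = 0 := by
    intro R i hi j hj
    have hij : i ≠ j := fun h => hj (h ▸ hi)
    simp only [lowM, hi, if_true]
    exact Matrix.one_apply_ne hij
  rw [Matrix.twoBlockTriangular_det' (lowM m P) (fun i => (i : ℕ) < m) (key P),
    Matrix.twoBlockTriangular_det' (lowM m Q) (fun i => (i : ℕ) < m) (key Q)]
  congr 1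
  · congr 1
    ext i j
    have hi : ((i : Fin (k + 1)) : ℕ) < m := i.2
    simp only [Matrix.toSquareBlockProp_def, Matrix.of_apply, lowM, hi, if_true]
  · congr 1
    ext i j
    have hi : ¬ ((i : Fin (k + 1)) : ℕ) < m := i.2
    have hj : ¬ ((j : Fin (k + 1)) : ℕ) < m := j.2
    simp only [Matrix.toSquareBlockProp_def, Matrix.of_apply, lowM, hi, if_false]
    exact h _ _ (not_lt.mp hi) (not_lt.mp hj)

/-- the lower determinant of a product -/
theorem lowM_det_mul {k m : ℕ} (A B : Matrix (Fin (k + 1)) (Fin (k + 1)) ℂ)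
    (hB : ∀ i j : Fin (k + 1), (i : ℕ) < m → j ≠ i → B i j = 0) :
    (lowM m (A * B)).det = (lowM m A).det * (lowM m B).det := by
  rw [← Matrix.det_mul]
  have h1 : lowM m A * lowM m B = lowM m (lowM m A * lowM m B) := by
    ext i j
    by_cases hi : (i : ℕ) < m
    · simp only [lowM, hi, if_true, Matrix.mul_apply]
      rw [Finset.sum_eq_single i]
      · simp only [hi, if_true, Matrix.one_apply_eq, one_mul]
      · intro l _ hl
        rw [Matrix.one_apply_ne (Ne.symm hl), zero_mul]
      · intro h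
        exact absurd (Finset.mem_univ i) h
    · simp only [lowM, hi, if_false]
  rw [h1]
  refine lowM_det_congr _ _ fun i j hi hj => ?_
  have hi' : ¬ (i : ℕ) < m := not_lt.mpr hi
  simp only [Matrix.mul_apply, lowM, hi', if_false]
  refine Finset.sum_congr rfl fun l _ => ?_
  by_cases hl : (l : ℕ) < m
  · have hjl : j ≠ l := fun h => absurd (h ▸ hj) (not_le.mpr hl)
    rw [hB l j hl hjl]
    simp only [hl, if_true]
    rw [Matrix.one_apply_ne (Ne.symm hjl)]
  · simp only [hl, if_false]

theorem jac_diag {k m D : ℕ} (G : Fin (k + 1) → MvPolynomial (Fin (k + 1)) ℂ) (hG : IsM m D G)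
    (x : Fin (k + 1) → ℂ) (i j : Fin (k + 1)) (hi : (i : ℕ) < m) (hj : j ≠ i) :
    jac G x i j = 0 := by
  change MvPolynomial.eval x (MvPolynomial.pderiv j (G i)) = 0
  rw [hG.diag i hi, Derivation.leibniz_pow, MvPolynomial.pderiv_X_of_ne hj.symm]
  simp

theorem pf_MKL (hMKB : T_MKB) (hD12 : T_D12) : T_MKL := by
  intro m k d F hmk hk hd hF
  obtain ⟨-, -, -, -, hdet, -, -, hiter⟩ := hMKB m k d F hmk hk hd hF
  obtain ⟨C, hC1, hC⟩ := ev_bd F hF.isH
  have hC0 : 0 < C := by linarith
  set r : ℕ := k + 1 - m with hr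
  refine ⟨(C ^ r)⁻¹, by positivity, inv_le_one_of_one_le₀ (one_le_pow₀ hC1), ?_⟩
  intro n x hx
  have hx0 := nrm_ps x hx
  induction n with
  | zero =>
    have h1 : ev (iter F 0) x = x := by
      funext i
      change MvPolynomial.eval x (MvPolynomial.X i) = x i
      rw [MvPolynomial.eval_X]
    have h2 : jac (iter F 0) x = 1 := by
      funext i a
      change MvPolynomial.eval x
        (MvPolynomial.pderiv a (MvPolynomial.X i)) = _
      rw [MvPolynomial.pderiv_X, Matrix.one_apply]
      by_cases h : i = a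
      · subst h; simp
      · rw [if_neg h, Pi.single_apply, if_neg h]; simp
    have h3 : lowM m (1 : Matrix (Fin (k + 1)) (Fin (k + 1)) ℂ) = 1 := by
      funext i a
      by_cases hi : (i : ℕ) < m
      · simp only [lowM, hi, if_true]
      · simp only [lowM, hi, if_false]
    unfold relL
    rw [h1, h2, h3, Matrix.det_one]
    simp only [pow_zero, Finset.range_zero, Finset.prod_empty, mul_one, norm_one, one_mul]
    rw [div_self (pow_ne_zero _ hx0.ne')]
  | succ n ih =>
    obtain ⟨hH, hev, hjac, -, -⟩ := hD12 (k + 1) d F (by omega) hF.isH 1 n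
    set y : Fin (k + 1) → ℂ := ev (iter F n) x with hy
    have hy0 : y ≠ 0 := fun h => hx (hH.nd x h)
    have hyp := nrm_ps y hy0
    have hFy0 : ev F y ≠ 0 := fun h => hy0 (hF.isH.nd y h)
    have hFyp := nrm_ps (ev F y) hFy0
    have hstep : relL m (iter F (n + 1)) x = relL m F y * relL m (iter F n) x := by
      rw [add_comm n 1]
      unfold relL
      rw [hev x, hjac x, iter_one, lowM_det_mul _ _ (jac_diag _ (hiter n) x),
        norm_mul, ← hy]
      field_simp
    have hlow : (C ^ r)⁻¹ * nv (lowP m F) (r * (d - 1)) y ≤ relL m F y := by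
      unfold relL nv
      rw [hdet y, ← hr]
      have h1 : nrm (ev F y) ^ r ≤ C ^ r * nrm y ^ (r * (d - 1)) * nrm y ^ r := by
        calc nrm (ev F y) ^ r ≤ (C * nrm y ^ d) ^ r :=
              pow_le_pow_left₀ (nrm_nn _) (hC y) r
          _ = C ^ r * nrm y ^ (r * (d - 1)) * nrm y ^ r := by
              rw [mul_pow, ← pow_mul, mul_assoc, ← pow_add]
              congr 2
              obtain ⟨e, rfl⟩ := Nat.exists_eq_add_of_le (show 1 ≤ d by omega)
              rw [Nat.add_sub_cancel_left]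
              ring
      rw [le_div_iff₀ (pow_pos hFyp r)]
      have h2 : 0 ≤ (C ^ r)⁻¹ * (‖(lowM m (jac F y)).det‖ / nrm y ^ (r * (d - 1))) := by
        positivity
      refine (mul_le_mul_of_nonneg_left h1 h2).trans (le_of_eq ?_)
      have h3 : nrm y ^ (r * (d - 1)) ≠ 0 := pow_ne_zero _ hyp.ne'
      have h4 : C ^ r ≠ 0 := pow_ne_zero _ hC0.ne'
      field_simp
    rw [hstep, Finset.prod_range_succ, ← hy, pow_succ]
    have hnv0 : 0 ≤ nv (lowP m F) (r * (d - 1)) y := by
      unfold nv
      exact div_nonneg (norm_nonneg _) (pow_nonneg (nrm_nn y) _)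
    have hprod0 : 0 ≤ ∏ l ∈ Finset.range n, nv (lowP m F) (r * (d - 1)) (ev (iter F l) x) :=
      Finset.prod_nonneg fun l _ => by
        unfold nv
        exact div_nonneg (norm_nonneg _) (pow_nonneg (nrm_nn _) _)
    calc (C ^ r)⁻¹ ^ n * (C ^ r)⁻¹ *
        ((∏ l ∈ Finset.range n, nv (lowP m F) (r * (d - 1)) (ev (iter F l) x)) *
          nv (lowP m F) (r * (d - 1)) y) =
        ((C ^ r)⁻¹ * nv (lowP m F) (r * (d - 1)) y) * ((C ^ r)⁻¹ ^ n *
          ∏ l ∈ Finset.range n, nv (lowP m F) (r * (d - 1)) (ev (iter F l) x)) := by ring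
      _ ≤ relL m F y * relL m (iter F n) x := by
          have hc0 : 0 ≤ (C ^ r)⁻¹ := inv_nonneg.2 (pow_nonneg hC0.le r)
          exact mul_le_mul hlow ih (mul_nonneg (pow_nonneg hc0 n) hprod0)
            (le_trans (mul_nonneg hc0 hnv0) hlow)

end Pool.Agent.H41.EM
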